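import Mathlib
import Pool.Agent.Lib.MP_0c3574_an.Defs
import Pool.Agent.Lib.MP_0c3574_an.Main

/-!
# Weak rational ergodicity and power weak mixing imply rational weak mixing

The proof only uses ergodicity of `T × T`.  Given weights `ε_i` with values in `{0, 1}`, the limits
(along any ultrafilter) of `(1/a_n) ∑_{i<n} ε_i μ(T^i A ∩ B)` define, by weak rational ergodicity,
a measure on `X × X` dominated by `μ × μ`.  This measure is invariant under `T × T`, hence a
multiple of `μ × μ`.  Choosing `ε_i = 1` if and only if `μ(T^i A ∩ B) > μ(A) μ(B) u_i(F)` gives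
rational weak mixing.
-/

set_option autoImplicit false

namespace Pool.Agent.Results.MP_0c3574_an.WREandPWMimplyRWM

open MeasureTheory
open Pool.Agent.Lib.MP_0c3574_an

/-- Every invertible, conservative, ergodic, measure-preserving transformation of a sigma-finite
measure space that is weakly rationally ergodic and power weakly mixing is rationally weakly
mixing. -/
theorem result (X : Type) [MeasurableSpace X] (μ : Measure X) [SigmaFinite μ] (T : X ≃ᵐ X)
    (hcons : Conservative T μ) (herg : Ergodic T μ)
    (hWRE : WeaklyRationallyErgodic μ T) (hPWM : PowerWeaklyMixing μ T) :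
    RationallyWeaklyMixing μ T := by
  obtain ⟨F, hF, hF0, hF1, hW⟩ := hWRE
  exact ⟨F, hF, hF0, hF1, fun A B hA hB hAF hBF =>
    tendsto_abs herg hcons (ergodic_square hPWM) hF hF0 hF1 hW hA hB hAF hBF⟩

end Pool.Agent.Results.MP_0c3574_an.WREandPWMimplyRWM
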